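import Pool.Agent.MP_887f27_pr.H69.Main
import Pool.Agent.MP_887f27_pr.H6.Junta
import Pool.Agent.MP_887f27_pr.H12.X1Russo
import Pool.Agent.MP_887f27_pr.H16.Select
import Pool.Agent.MP_887f27_pr.H39.Limit
import Pool.Agent.MP_887f27_pr.H44.Good
import Pool.Agent.MP_887f27_pr.H48.Abstract
import Pool.Agent.MP_887f27_pr.H51.Energy
import Pool.Agent.MP_887f27_pr.H53.Pattern
import Pool.Agent.MP_887f27_pr.H61.Param
import Pool.Agent.MP_887f27_pr.H80.Defect
import Pool.Agent.MP_887f27_pr.H91.Bridge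
import Pool.Agent.MP_887f27_pr.H96.Count
import Pool.Agent.MP_887f27_pr.H96.Struct

set_option autoImplicit false

namespace Pool.Agent.Results.MP_887f27_pr.CriticalHalf

open MeasureTheory ProbabilityTheory Set Filter Topology

/-- The vertices of the 4-regular tree, taken as the Cayley graph of the free group on two
generators `a 0`, `a 1`: the neighbours of `v` are `v * a i` and `v * (a i)⁻¹`. -/
abbrev V : Type := FreeGroup (Fin 2)

/-- The time of ring number `n` of a clock with waiting times `ξ`. -/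
def ring (ξ : ℕ → ℝ) (n : ℕ) : ℝ := ∑ k ∈ Finset.range (n + 1), ξ k

/-- The new spin: the sign of the sum `S` of the four neighbouring spins, the coin `c` if
`S = 0`. -/
noncomputable def vote (S c : ℝ) : ℝ := if 0 < S then 1 else if S < 0 then -1 else c

/-- The trajectory `σ` starts from `x` and changes only at the rings of the clocks with waiting
times `ξ`; at ring `n` of `v` the spin of `v` becomes the vote of the spins that the four
neighbours have just before that time, with the coin `c (v, n)`. -/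
def Evolves (x : V → ℝ) (ξ c : V × ℕ → ℝ) (σ : V → ℝ → ℝ) : Prop :=
  ∀ v, (∀ t, 0 ≤ t → t < ring (fun k => ξ (v, k)) 0 → σ v t = x v) ∧
    ∀ n t, ring (fun k => ξ (v, k)) n ≤ t → t < ring (fun k => ξ (v, k)) (n + 1) →
      σ v t = vote (∑ i : Fin 2,
        (Function.leftLim (σ (v * FreeGroup.of i)) (ring (fun k => ξ (v, k)) n) +
          Function.leftLim (σ (v * (FreeGroup.of i)⁻¹)) (ring (fun k => ξ (v, k)) n))) (c (v, n))

/-- Zero-temperature Glauber dynamics on the 4-regular tree with initial density `p`, on some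
probability space. -/
structure Glauber (p : ℝ) : Type 1 where
  Ω : Type
  [mΩ : MeasurableSpace Ω]
  P : Measure Ω
  [prob : IsProbabilityMeasure P]
  init : V → Ω → ℝ
  wait : V × ℕ → Ω → ℝ
  coin : V × ℕ → Ω → ℝ
  σ : V → ℝ → Ω → ℝ
  meas : ∀ i, Measurable (Sum.elim init (Sum.elim wait coin) i)
  indep : iIndepFun (Sum.elim init (Sum.elim wait coin)) P
  law_init : ∀ v, P {ω | init v ω = 1} = ENNReal.ofReal p ∧
    P {ω | init v ω = -1} = ENNReal.ofReal (1 - p)
  law_wait : ∀ i, P.map (wait i) = expMeasure 1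
  law_coin : ∀ i, P {ω | coin i ω = 1} = 1 / 2 ∧ P {ω | coin i ω = -1} = 1 / 2
  evolves : ∀ᵐ ω ∂P, Evolves (fun v => init v ω) (fun i => wait i ω) (fun i => coin i ω)
    fun v t => σ v t ω

attribute [instance] Glauber.mΩ Glauber.prob

/-- Almost surely every spin tends to `+1`. -/
def Glauber.Fixates {p : ℝ} (G : Glauber p) : Prop :=
  ∀ᵐ ω ∂G.P, ∀ v, Tendsto (fun t => G.σ v t ω) atTop (𝓝 1)

open Pool.Agent.MP_887f27_pr Pool.Agent.MP_887f27_pr.H69

theorem leftLim_eq {ξ : ℕ → ℝ} (hu : ∀ t, ∃ n, t ≤ tm ξ n) {f : ℝ → ℝ} {a : ℝ} {b : ℕ → ℝ}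
    (h0 : ∀ t, 0 ≤ t → t < tm ξ 0 → f t = a)
    (h1 : ∀ n t, tm ξ n ≤ t → t < tm ξ (n + 1) → f t = b n) {s : ℝ} (hs : 0 < s)
    (hn : ∀ n, s ≠ tm ξ n) : Function.leftLim f s = f s := by
  have h2 : s < tm ξ (cnt ξ s) := lt_of_le_of_ne (le_tm_cnt (hu s)) (hn _)
  have key : ∃ c < s, ∀ u ∈ Ioo c s, f s = f u := by
    rcases h : cnt ξ s with _ | k
    · rw [h] at h2
      exact ⟨0, hs, fun u hu => by rw [h0 s hs.le h2, h0 u hu.1.le (hu.2.trans h2)]⟩
    · have h3 := tm_lt_of_lt_cnt (h ▸ k.lt_succ_self : k < cnt ξ s)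
      rw [h] at h2
      exact ⟨_, h3, fun u hu => by rw [h1 k s h3.le h2, h1 k u hu.1.le (hu.2.trans h2)]⟩
  obtain ⟨c, hc, h⟩ := key
  exact leftLim_eq_of_tendsto
    (tendsto_const_nhds.congr' (eventually_of_mem (Ioo_mem_nhdsLT hc) h))

theorem sum_eq {ξ : Clk} (hG : Good ξ) {σ : V → ℝ → ℝ} {a : V → ℝ} {b : V → ℕ → ℝ}
    (h : ∀ v, (∀ t, 0 ≤ t → t < tm (ξ v) 0 → σ v t = a v) ∧
      ∀ n t, tm (ξ v) n ≤ t → t < tm (ξ v) (n + 1) → σ v t = b v n) (v : V) (n : ℕ) :
    ∑ i : Fin 2, (Function.leftLim (σ (v * FreeGroup.of i)) (tm (ξ v) n) +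
      Function.leftLim (σ (v * (FreeGroup.of i)⁻¹)) (tm (ξ v) n)) =
    ∑ i : Fin 2, (σ (v * FreeGroup.of i) (tm (ξ v) n) + σ (v * (FreeGroup.of i)⁻¹) (tm (ξ v) n)) := by
  have e : ∀ d, Function.leftLim (σ (v * g d)) (tm (ξ v) n) = σ (v * g d) (tm (ξ v) n) := fun d =>
    leftLim_eq (hG.2.1 _) (h _).1 (h _).2 (tm_pos (hG.1 v) n)
      fun m => hG.2.2.1 v _ n m (mul_g_ne v d).symm
  refine Finset.sum_congr rfl fun i _ => ?_
  rw [← g_false, ← g_true, e, e]

theorem evolves_iff {x : V → ℝ} {ξ c : V × ℕ → ℝ} {σ : V → ℝ → ℝ}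
    (hG : Good fun v n => ξ (v, n)) : Evolves x ξ c σ ↔ H91.Rec (fun v n => ξ (v, n)) x c σ :=
  ⟨fun h v => ⟨(h v).1, fun n t h1 h2 => ((h v).2 n t h1 h2).trans
      (congrArg (vote · (c (v, n))) (sum_eq hG h v n))⟩,
    fun h v => ⟨(h v).1, fun n t h1 h2 => ((h v).2 n t h1 h2).trans
      (congrArg (vote · (c (v, n))) (sum_eq hG h v n).symm)⟩⟩

theorem tail {Ω : Type} [MeasurableSpace Ω] {P : Measure Ω} {Y : Ω → ℝ} (m : Measurable Y)
    (h : P.map Y = expMeasure 1) {t : ℝ} (ht : 0 ≤ t) :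
    P {ω | t < Y ω} = ENNReal.ofReal (Real.exp (-t)) := by
  rw [← H44.ex1_Ioi ht, ex1, ← h, Measure.map_apply m measurableSet_Ioi]
  rfl

theorem ae_good {p : ℝ} (h0 : 0 ≤ p) (h1 : p ≤ 1) {Ω : Type} [MeasurableSpace Ω] {P : Measure Ω}
    [IsProbabilityMeasure P] {X : H91.Idx → Ω → ℝ} (mX : ∀ i, Measurable (X i))
    (iX : iIndepFun X P) (hS : ∀ v, P {ω | X (Sum.inl v) ω = 1} = ENNReal.ofReal p)
    (hC : ∀ i, P.map (X (Sum.inr (Sum.inl i))) = expMeasure 1)
    (hM : ∀ i, P {ω | X (Sum.inr (Sum.inr i)) ω = 1} = 1 / 2) :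
    ∀ᵐ ω ∂P, Good fun v n => X (Sum.inr (Sum.inl (v, n))) ω := by
  obtain ⟨mR, mr, eL⟩ := H91.law p h0 h1 Ω P X mX iX hS
    (fun v n t ht => tail (mX _) (hC (v, n)) ht) fun v n => hM (v, n)
  have b1 : ∀ᵐ w ∂(PP p).map redOm, Good w.1.1 := by
    have q1 : MeasurePreserving (fun w : Om => w.1.1) ((PP p).map redOm) muC := by
      refine ⟨by fun_prop, ?_⟩
      rw [Measure.map_map (by fun_prop) mr]
      exact (measurePreserving_fst.comp measurePreserving_fst :
        MeasurePreserving (fun ω : Om => ω.1.1) (PP p) muC).map_eq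
    exact q1.quasiMeasurePreserving.ae H44.goodAE
  rw [← eL] at b1
  exact ae_of_ae_map mR.aemeasurable b1

theorem Glauber.good {p : ℝ} (G : Glauber p) (h0 : 0 ≤ p) (h1 : p ≤ 1) :
    ∀ᵐ ω ∂G.P, Good fun v n => G.wait (v, n) ω :=
  ae_good h0 h1 G.meas G.indep (fun v => (G.law_init v).1) G.law_wait fun i => (G.law_coin i).1

theorem Glauber.fixates {p : ℝ} (G : Glauber p) (hp : 1 / 2 < p) (h1 : p ≤ 1) : G.Fixates := by
  have h := target_of H6.junta H48.abstr H39.limit H96.count H16.select H96.s1 H96.s2 H12.x1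
    H12.russo H44.glue_stmt H44.good H51.energy H53.pattern H80.defect H80.transfer H61.expand
    H61.param H91.law H91.bridge hp h1 G.Ω G.P (Sum.elim G.init (Sum.elim G.wait G.coin))
    (fun v n ω => tm (fun k => G.wait (v, k) ω) n) G.σ G.meas G.indep G.law_init
    (fun v n t ht => tail (G.meas (Sum.inr (Sum.inl (v, n)))) (G.law_wait (v, n)) ht)
    (fun v n => G.law_coin (v, n)) (fun _ _ _ => rfl) (by
      filter_upwards [G.good (by linarith) h1, G.evolves] with ω h2 h3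
      exact (evolves_iff h2).1 h3)
  filter_upwards [h] with ω hω v
  obtain ⟨t, ht⟩ := hω v
  exact tendsto_const_nhds.congr' (eventually_atTop.2 ⟨t, fun s hs => (ht s hs).symm⟩)

theorem vote_neg (S c : ℝ) : vote (-S) (-c) = -vote S c := by
  rcases lt_trichotomy S 0 with h | rfl | h
  · simp [vote, h, h.not_gt]
  · simp [vote]
  · simp [vote, h, h.not_gt]

/-- The dynamics with all spins reversed. -/
def Glauber.flip {p : ℝ} (G : Glauber p) (h0 : 0 ≤ p) (h1 : p ≤ 1) : Glauber (1 - p) where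
  Ω := G.Ω
  P := G.P
  init v ω := -G.init v ω
  wait := G.wait
  coin i ω := -G.coin i ω
  σ v t ω := -G.σ v t ω
  meas := by
    rintro (v | i | i)
    exacts [(G.meas (Sum.inl v)).neg, G.meas (Sum.inr (Sum.inl i)),
      (G.meas (Sum.inr (Sum.inr i))).neg]
  indep := by
    have := G.indep.comp (fun i : H91.Idx => Sum.elim (fun _ (x : ℝ) => -x)
      (Sum.elim (fun _ x => x) fun _ x => -x) i) (by
        rintro (v | i | i)
        exacts [measurable_neg, measurable_id, measurable_neg])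
    convert this using 2 with i
    rcases i with v | i | i <;> rfl
  law_init v := by
    simp only [neg_eq_iff_eq_neg, neg_neg, sub_sub_cancel]
    exact (G.law_init v).symm
  law_wait := G.law_wait
  law_coin i := by
    simp only [neg_eq_iff_eq_neg, neg_neg]
    exact (G.law_coin i).symm
  evolves := by
    filter_upwards [G.good h0 h1, G.evolves] with ω h2 h3
    have h4 := (evolves_iff h2).1 h3
    refine (evolves_iff h2).2 fun v => ⟨fun t a b => congrArg _ ((h4 v).1 t a b),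
      fun n t a b => (congrArg _ ((h4 v).2 n t a b)).trans ((vote_neg _ _).symm.trans ?_)⟩
    simp only [← Finset.sum_neg_distrib, neg_add]
    rfl

theorem rec_exists {ξ : Clk} (hG : Good ξ) {x : V → ℝ} {c : V × ℕ → ℝ}
    (hx : ∀ v, x v = 1 ∨ x v = -1) (hc : ∀ i, c i = 1 ∨ c i = -1) :
    ∃ σ, H91.Rec ξ x c σ := by
  refine ⟨fun v t => H91.sg (valI rC (H91.mk ξ x c) v (tm (ξ v) (sInf {n | t < tm (ξ v) n}))),
    fun v => ⟨fun t _ h => ?_, fun n t h1 h2 => ?_⟩⟩
  · have : sInf {n | t < tm (ξ v) n} = 0 := Nat.sInf_eq_zero.2 (Or.inl h)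
    simp only [this]
    rw [valI_zero rC (cnt_tm (hG.1 v) 0)]
    exact (H91.sg_dec (hx v)).symm
  · have e1 : sInf {n | t < tm (ξ v) n} = n + 1 :=
      le_antisymm (Nat.sInf_le h2) (le_csInf ⟨_, h2⟩ fun m hm =>
        (tm_strictMono (hG.1 v)).lt_iff_lt.1 (h1.trans_lt hm))
    have e2 : ∀ d, valI rC (H91.mk ξ x c) (v * g d)
        (tm (ξ (v * g d)) (sInf {m | tm (ξ v) n < tm (ξ (v * g d)) m})) =
        valI rC (H91.mk ξ x c) (v * g d) (tm (ξ v) n) := fun d => valI_congr_cnt _ _ (by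
      refine (cnt_tm (hG.1 _) _).trans (congrArg sInf (Set.ext fun m => ?_))
      exact ⟨fun h => le_of_lt (α := ℝ) (a := tm (ξ v) n) (b := tm (ξ (v * g d)) m) h, fun h =>
        lt_of_le_of_ne h (hG.2.2.1 v _ n m (mul_g_ne v d).symm)⟩)
    have e3 : ∀ i : Fin 2, (g (i, true))⁻¹ = g (i, false) := fun i => (g_false i).symm
    simp only [e1, ← g_true, e3, e2]
    rw [valI_succ rC (ω := H91.mk ξ x c) hG (cnt_tm (hG.1 v) (n + 1)), H91.sg_dec (hc (v, n))]
    exact (H91.rule_eq _ fun d => valI rC (H91.mk ξ x c) (v * g d) (tm (ξ v) n)).symm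

theorem ber_sg {q : ℝ} (h0 : 0 ≤ q) (h1 : q ≤ 1) :
    (ber q).map H91.sg {1} = ENNReal.ofReal q ∧
      (ber q).map H91.sg {-1} = ENNReal.ofReal (1 - q) := by
  have e : (-1 : ℝ) ≠ 1 := by norm_num
  rw [Measure.map_apply (measurable_of_countable _) (measurableSet_singleton _),
    Measure.map_apply (measurable_of_countable _) (measurableSet_singleton _), ber,
    min_eq_left h1, max_eq_right h0]
  simp [H91.sg, e, e.symm]

theorem exists_glauber {p : ℝ} (h0 : 0 ≤ p) (h1 : p ≤ 1) : Nonempty (Glauber p) := by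
  let μ : H91.Idx → Measure ℝ := Sum.elim (fun _ => (ber p).map H91.sg)
    (Sum.elim (fun _ => ex1) fun _ => (ber (1 / 2)).map H91.sg)
  have : ∀ i, IsProbabilityMeasure (μ i) := by
    rintro (v | i | i)
    exacts [Measure.isProbabilityMeasure_map (measurable_of_countable _).aemeasurable,
      inferInstanceAs (IsProbabilityMeasure ex1),
      Measure.isProbabilityMeasure_map (measurable_of_countable _).aemeasurable]
  let X : H91.Idx → (H91.Idx → ℝ) → ℝ := fun i ω => ω i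
  have mX : ∀ i, Measurable (X i) := measurable_pi_apply
  have iX : iIndepFun X (Measure.infinitePi μ) :=
    iIndepFun_infinitePi (X := fun _ x => x) fun _ => measurable_id
  have lX : ∀ i, (Measure.infinitePi μ).map (X i) = μ i := Measure.infinitePi_map_eval μ
  have aX : ∀ i (r : ℝ), Measure.infinitePi μ {ω | X i ω = r} = μ i {r} := fun i r => by
    rw [← lX, Measure.map_apply (mX i) (measurableSet_singleton _)]
    rfl
  have hS : ∀ v, Measure.infinitePi μ {ω | X (Sum.inl v) ω = 1} = ENNReal.ofReal p ∧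
      Measure.infinitePi μ {ω | X (Sum.inl v) ω = -1} = ENNReal.ofReal (1 - p) := fun v => by
    rw [aX, aX]
    exact ber_sg h0 h1
  have hM : ∀ i, Measure.infinitePi μ {ω | X (Sum.inr (Sum.inr i)) ω = 1} = 1 / 2 ∧
      Measure.infinitePi μ {ω | X (Sum.inr (Sum.inr i)) ω = -1} = 1 / 2 := fun i => by
    have := ber_sg (q := 1 / 2) (by norm_num) (by norm_num)
    rw [show (1 : ℝ) - 1 / 2 = 1 / 2 by norm_num, ENNReal.ofReal_div_of_pos two_pos,
      ENNReal.ofReal_one, ENNReal.ofReal_ofNat] at this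
    rw [aX, aX]
    exact this
  have eX : (Sum.elim (fun v => X (Sum.inl v)) (Sum.elim (fun i => X (Sum.inr (Sum.inl i)))
      fun i => X (Sum.inr (Sum.inr i)))) = X := by
    funext i
    rcases i with v | i | i <;> rfl
  have h : ∀ᵐ ω ∂Measure.infinitePi μ, ∃ σ, Evolves (fun v => X (Sum.inl v) ω)
      (fun i => X (Sum.inr (Sum.inl i)) ω) (fun i => X (Sum.inr (Sum.inr i)) ω) σ := by
    filter_upwards [ae_good h0 h1 mX iX (fun v => (hS v).1) (fun i => lX _) fun i => (hM i).1,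
      ae_all_iff.2 fun v => H91.ae_pm (mX (Sum.inl v)) (by
        rw [(hS v).1, (hS v).2, ← ENNReal.ofReal_add h0 (by linarith)]; simp),
      ae_all_iff.2 fun i => H91.ae_pm (mX (Sum.inr (Sum.inr i))) (by
        rw [(hM i).1, (hM i).2, ENNReal.add_halves])] with ω a b c
    exact (rec_exists a b c).imp fun σ => (evolves_iff a).2
  exact ⟨{
    Ω := H91.Idx → ℝ
    P := Measure.infinitePi μ
    init := fun v => X (Sum.inl v)
    wait := fun i => X (Sum.inr (Sum.inl i))
    coin := fun i => X (Sum.inr (Sum.inr i))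
    σ := fun v t ω => Classical.epsilon (Evolves (fun v => X (Sum.inl v) ω)
      (fun i => X (Sum.inr (Sum.inl i)) ω) fun i => X (Sum.inr (Sum.inr i)) ω) v t
    meas := eX.symm ▸ mX
    indep := eX.symm ▸ iX
    law_init := hS
    law_wait := fun _ => lX _
    law_coin := hM
    evolves := h.mono fun _ => Classical.epsilon_spec }⟩

/-- The dynamics exists for every density, and its critical density for fixation at `+1` is
`1 / 2`. -/
theorem result : (∀ p ∈ Icc (0 : ℝ) 1, Nonempty (Glauber p)) ∧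
    ∀ G : ∀ p ∈ Icc (0 : ℝ) 1, Glauber p,
      sInf {p : ℝ | ∃ h : p ∈ Icc (0 : ℝ) 1, (G p h).Fixates} = 1 / 2 := by
  refine ⟨fun p h => exists_glauber h.1 h.2, fun G => ?_⟩
  have lo : ∀ p ∈ {p : ℝ | ∃ h : p ∈ Icc (0 : ℝ) 1, (G p h).Fixates}, 1 / 2 ≤ p := by
    rintro p ⟨h, hp⟩
    by_contra hc
    obtain ⟨ω, a, b⟩ := (hp.and (((G p h).flip h.1 h.2).fixates (by linarith)
      (by linarith [h.1]))).exists
    have := tendsto_nhds_unique (a 1).neg (b 1)
    norm_num at this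
  have up : Ioc (1 / 2 : ℝ) 1 ⊆ {p : ℝ | ∃ h : p ∈ Icc (0 : ℝ) 1, (G p h).Fixates} :=
    fun p h => ⟨⟨by linarith [h.1], h.2⟩, (G p _).fixates h.1 h.2⟩
  refine le_antisymm ?_ (le_csInf ⟨1, up ⟨by norm_num, le_rfl⟩⟩ lo)
  rw [← csInf_Ioc (by norm_num : (1 / 2 : ℝ) < 1)]
  exact csInf_le_csInf ⟨_, lo⟩ ⟨1, by norm_num, le_rfl⟩ up

end Pool.Agent.Results.MP_887f27_pr.CriticalHalf
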